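import Pool.Agent.W236.SC.PFinal

/-!
# Subword complex equivalences of alternating words are lattice congruences

All finite Coxeter systems. The proof: a walk lemma (proved for simply laced systems with quiver
representations, and in general by unfolding), the local structure of the classes on polygons of the weak
order, and the reduction of lattice congruences to polygons.
-/

set_option autoImplicit false

namespace Pool.Agent.Results.MP_170371_co.AltLatticeCongruence

open Pool.Agent.W236.SWC

universe u v

/-- for every finite Coxeter system `cs`, every alternating word `Q` and every `ω` with non-empty subword
complex, the relation `≡` is a lattice congruence of the interval `[1, ω]` of the right weak order -/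
theorem result {B : Type u} [Fintype B] [DecidableEq B] {M : CoxeterMatrix B} {W : Type v} [Group W]
    [Finite W] (cs : CoxeterSystem M W) (Q : List B) (ω : W) (hQ : Alternating cs Q)
    (hne : ∃ I : Finset (Fin Q.length), IsFacet cs Q ω I) : IsLatticeCongruence cs Q ω :=
  latCong cs Q ω hQ hne

end Pool.Agent.Results.MP_170371_co.AltLatticeCongruence
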